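import Pool.Agent.TMX.Stmts

/-!
# Squad TMX, row HV (helper19): the sum of three values of the h-maxima transform
-/

set_option autoImplicit false

namespace Pool.Agent.TMX.H19

open Pool.Agent.TMX

theorem one_peak {N : ℕ} {g : ℕ → ℝ} {ε : ℝ} (hD : Deep N g ε) {P : ℕ} (hP : P ≤ N) :
    ∃ x₁ y₁ x₂ y₂ x₃ : ℕ, x₁ ≤ y₁ ∧ y₁ ≤ x₂ ∧ x₂ ≤ y₂ ∧ y₂ ≤ x₃ ∧ x₃ ≤ N ∧
      g P + 2 * ε ≤ g x₁ - g y₁ + g x₂ - g y₂ + g x₃ := by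
  obtain ⟨a, b, c, d, e, hab, hbc, hcd, hde, heN, h1, h2, h3, h4⟩ := hD
  rcases le_total P b with hPb | hPb
  · exact ⟨P, b, c, d, e, hPb, hbc.le, hcd.le, hde.le, heN, by linarith⟩
  rcases le_total P d with hPd | hPd
  · exact ⟨a, b, P, d, e, hab.le, hPb, hPd, hde.le, heN, by linarith⟩
  · exact ⟨a, b, c, d, P, hab.le, hbc.le, hcd.le, hPd, hP, by linarith⟩

theorem two_peaks {N : ℕ} {g : ℕ → ℝ} {ε : ℝ} (hD : Deep N g ε) {P W Q : ℕ} (hPW : P ≤ W)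
    (hWQ : W ≤ Q) (hQ : Q ≤ N) :
    ∃ x₁ y₁ x₂ y₂ x₃ : ℕ, x₁ ≤ y₁ ∧ y₁ ≤ x₂ ∧ x₂ ≤ y₂ ∧ y₂ ≤ x₃ ∧ x₃ ≤ N ∧
      g P - g W + g Q + ε ≤ g x₁ - g y₁ + g x₂ - g y₂ + g x₃ := by
  obtain ⟨a, b, c, d, e, hab, hbc, hcd, hde, heN, h1, h2, h3, h4⟩ := hD
  rcases le_total b P with hbP | hbP
  · exact ⟨a, b, P, W, Q, hab.le, hbP, hPW, hWQ, hQ, by linarith⟩
  rcases le_total c W with hcW | hcW
  · exact ⟨P, b, c, W, Q, hbP, hbc.le, hcW, hWQ, hQ, by linarith⟩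
  rcases le_total d Q with hdQ | hdQ
  · exact ⟨P, W, c, d, Q, hPW, hcW, hcd.le, hdQ, hQ, by linarith⟩
  · exact ⟨P, W, Q, d, e, hPW, hWQ, hdQ, hde.le, heN, by linarith⟩

/-- **HV** -/
theorem hv : HV := by
  intro N g T ε k w l _hε hD hmax hlow hBi
  obtain ⟨hkw, hwl, hlN, _, hdn, hup, _⟩ := hBi
  have hTk : T w ≤ T k := hdn k w le_rfl hkw le_rfl
  have hTl : T w ≤ T l := hup w l le_rfl hwl le_rfl
  obtain ⟨P, hPN, hP, hPv⟩ := hmax k (by omega)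
  obtain ⟨Q, hQN, hQ, hQv⟩ := hmax l hlN
  rcases eq_or_lt_of_le hTk with h1 | h1
  · obtain ⟨x₁, y₁, x₂, y₂, x₃, a1, a2, a3, a4, a5, a6⟩ := one_peak hD hQN
    exact ⟨x₁, y₁, x₂, y₂, x₃, a1, a2, a3, a4, a5, by linarith⟩
  rcases eq_or_lt_of_le hTl with h2 | h2
  · obtain ⟨x₁, y₁, x₂, y₂, x₃, a1, a2, a3, a4, a5, a6⟩ := one_peak hD hPN
    exact ⟨x₁, y₁, x₂, y₂, x₃, a1, a2, a3, a4, a5, by linarith⟩
  have hPw : P < w := by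
    by_contra hcon
    have := hPv w (Or.inl ⟨hkw, not_lt.1 hcon⟩)
    linarith
  have hwQ : w < Q := by
    by_contra hcon
    have := hQv w (Or.inr ⟨not_lt.1 hcon, hwl⟩)
    linarith
  obtain ⟨W, hPW, hWw, hW⟩ := hlow P w hPw.le (by omega) (by linarith)
  obtain ⟨x₁, y₁, x₂, y₂, x₃, a1, a2, a3, a4, a5, a6⟩ :=
    two_peaks hD hPW (by omega : W ≤ Q) hQN
  exact ⟨x₁, y₁, x₂, y₂, x₃, a1, a2, a3, a4, a5, by linarith⟩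

end Pool.Agent.TMX.H19
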